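import Mathlib
import Pool.Agent.Work.MP_787500_nt.UV.Defs
import Pool.Agent.Work.MP_787500_nt.AR.Defs
import Pool.Agent.Work.MP_787500_nt.RC.FDefs

/-!
# Block UA (definitions): the arithmetic data over `K`, arbitrary ramification at the inert primes

`numA`: the number given by the odd primes (Artin conductor at the inert primes). `DatA`: the arithmetic data over `K`.
-/

set_option autoImplicit false
set_option linter.unusedSectionVars false

namespace Pool.Agent.Work.MP_787500_nt.UA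

open Matrix NumberField

variable {K : Type*} [Field K] [NumberField K]

open scoped Classical in
/-- the number given by the odd primes -/
noncomputable def numA (D : ℕ) (T : Finset ℕ) (W : Subgroup (AbsGal K))
    (Q : ℕ → Ideal (𝓞 (AlgebraicClosure K))) {E : Type*} [NormedField E] {n : ℕ}
    (ρ : AbsGal K →* Matrix (Fin n) (Fin n) E) : ℕ :=
  ∑ l ∈ T.filter (GA.Inr D), AR.artK l W (Q l) ρ +
    ∑ l ∈ T.filter (fun l => l ∣ D), Parity.quotDim (GP.stabD (Q l)) ((Q l).inertia (AbsGal K)) ρ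

/-- the arithmetic data over `K` -/
structure DatA (D : ℕ) (s : K) (c : AlgebraicClosure K ≃+* AlgebraicClosure K)
    (κ : AbsGal K →* AbsGal K) (T : Finset ℕ) (W : Subgroup (AbsGal K))
    (Q : ℕ → Ideal (𝓞 (AlgebraicClosure K))) {E : Type*} [NormedField E] [NormedAlgebra ℚ_[2] E]
    {n : ℕ} (ρ : AbsGal K →* Matrix (Fin n) (Fin n) E) (b : Matrix (Fin n) (Fin n) E) : Prop where
  isI : QX.IsI K D s
  conj : PA.IsConj s c
  kap : ∀ (σ : AbsGal K) (x : AlgebraicClosure K), κ σ x = c (σ (c x))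
  prime : ∀ l ∈ T, l.Prime ∧ l ≠ 2
  above : ∀ l ∈ T, (Q l).IsPrime ∧ (l : 𝓞 (AlgebraicClosure K)) ∈ Q l
  det : b.det ≠ 0
  rep : Parity.IsDualRep (GP.inT K T) (Parity.cyclo E) κ ρ b
  res : Parity.ResTrace ρ
  opn : IsOpen (W : Set (AbsGal K))
  nor : W.Normal
  wild : ∀ l ∈ T, GA.Inr D l → ∀ g ∈ W, g ∈ AR.wildSet l (Q l) → ρ g = 1
  ram : ∀ l ∈ T, l ∣ D → Parity.SemistableOn ((Q l).inertia (AbsGal K)) ρ

end Pool.Agent.Work.MP_787500_nt.UA
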