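import Mathlib
import Pool.Agent.Work.MP_787500_nt.UA.Defs
import Pool.Agent.Work.MP_787500_nt.KJ.MainL
import Pool.Agent.Work.MP_787500_nt.OV.MainR

/-!
# UA/GrN: Greenberg's condition at a prime over 2 that is its own conjugate

Copy of UV/GrN.lean for `DatA`.
-/

set_option autoImplicit false
set_option linter.unusedSectionVars false

namespace Pool.Agent.Work.MP_787500_nt.UA

open Matrix NumberField
open Pool.Agent.Work.MP_787500_nt.GP (inT stabD)
open Pool.Agent.Work.MP_787500_nt.PA (toE cyc)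
open Pool.Agent.Work.MP_787500_nt.HP (IsQ stb)
open Pool.Agent.Work.MP_787500_nt.KS (iK)
open Pool.Agent.Work.MP_787500_nt.Parity
open Pool.Agent.Work.MP_787500_nt.UV (perpAt mem_perpAt SubK)

universe u v

variable {K : Type u} [Field K] [NumberField K] {D : ℕ} {s : K}
  {c : AlgebraicClosure K ≃+* AlgebraicClosure K} {κ : AbsGal K →* AbsGal K} {T : Finset ℕ}
  {Q : ℕ → Ideal (𝓞 (AlgebraicClosure K))} {P P' : Ideal (𝓞 (AlgebraicClosure K))}
  {E : Type v} [NormedField E] [NormedAlgebra ℚ_[2] E] [FiniteDimensional ℚ_[2] E] {n : ℕ}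
  {ρ : AbsGal K →* Matrix (Fin n) (Fin n) E} {b : Matrix (Fin n) (Fin n) E}
  {W₁ : Subgroup (AbsGal K)}

/-- step 1: Greenberg's condition is its own annihilator -/
private theorem self_green (H : DatA D s c κ T W₁ Q ρ b) {W : Submodule E (Fin n → E)}
    (hW : SubK c P P' ρ b W) {g : AbsGal K} (h0 : iK K g * c ∈ stb P)
    {k : stabD (K := K) P → stabD (K := K) P} (hk : ∀ a, (k a : AbsGal K) = g * κ a * g⁻¹)
    (hW' : ∀ y, y ∈ annih b W ↔ ρ g *ᵥ y ∈ W) :
    Parity.IsSelfPerp (cyclo E) κ ρ b (stabD (K := K) P) (ρ g⁻¹) k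
      (greenbergAt ρ (stabD (K := K) P) W) := by
  classical
  have X := QX.two_I H.isI H.conj H.kap
  have hW2 := OV.two_finrank H.det hW'
  have hW0 : ∀ x ∈ W, ∀ y ∈ W, GP.bil b x (ρ g⁻¹ *ᵥ y) = 0 := fun x hx y hy => by
    refine (hW' _).2 ?_ x hx
    rw [mulVec_mulVec, ← map_mul, mul_inv_cancel, map_one, one_mulVec]
    exact hy
  exact (KJ.main_genL8 (κ := κ) H.isI H.conj H.kap hW.prime hW.two H.prime H.above H.det H.rep H.res
    H.opn H.nor H.wild H.ram h0 hk hW.st hW2 hW0).1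

theorem gr_perp_N (H : DatA D s c κ T W₁ Q ρ b) {W : Submodule E (Fin n → E)} (hW : SubK c P P' ρ b W)
    (hD : D % 8 ≠ 7) :
    perpAt (fun σ : stabD (K := K) P => cyclo E (σ : AbsGal K))
        (fun σ : stabD (K := K) P => ρ (κ σ)) b (greenbergAt ρ (stabD P) W) =
      greenbergAt (ρ.comp κ) (stabD P) (annih b W) := by
  have X := QX.two_I H.isI H.conj H.kap
  obtain rfl := OV.eq_cj hW.swap
  obtain ⟨g, h0⟩ := QX.exists_swap2 H.isI H.conj hD hW.prime hW.two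
  have hg := (OV.swap_iff X g).1 h0
  have hW' := hW.ann g hg
  have hκκ : ∀ a, κ (κ a) = a := X.kk
  have hm : ∀ a : stabD (K := K) P, κ (a : AbsGal K) ∈ stabD (K := K) (GA.cj c P) := fun a => by
    rw [OV.mem_stabD_cj X, hκκ]
    exact a.2
  obtain ⟨k, hk⟩ : ∃ k : stabD (K := K) P → stabD (K := K) P,
      ∀ a, (k a : AbsGal K) = g * κ a * g⁻¹ :=
    ⟨fun a => ⟨g * κ a * g⁻¹, (OV.mem_stabD_conj X h0 _).1 (hm a)⟩, fun a => rfl⟩
  obtain ⟨k', hk'⟩ : ∃ k' : stabD (K := K) P → stabD (K := K) P,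
      ∀ a, (k' a : AbsGal K) = κ (g⁻¹ * a * g) :=
    ⟨fun a => ⟨κ (g⁻¹ * a * g), (OV.mem_stabD_cj X _).1 ((OV.mem_stabD_conj X h0 _).2 (by
      have e : g * (g⁻¹ * (a : AbsGal K) * g) * g⁻¹ = a := by group
      rw [e]
      exact a.2))⟩, fun a => rfl⟩
  have hkk' : ∀ a, k (k' a) = a := fun a => Subtype.ext (by
    rw [hk, hk', hκκ]
    group)
  have hk'k : ∀ a, k' (k a) = a := fun a => Subtype.ext (by
    rw [hk', hk]
    have e : g⁻¹ * (g * κ (a : AbsGal K) * g⁻¹) * g = κ (a : AbsGal K) := by group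
    rw [e, hκκ])
  have hk'm : ∀ a a', k' (a * a') = k' a * k' a' := fun a a' => Subtype.ext (by
    rw [hk', Subgroup.coe_mul, Subgroup.coe_mul, hk', hk', ← map_mul]
    congr 1
    group)
  have hκc : Continuous κ := QX.kap_cont X
  have hk'c : Continuous k' := by
    refine continuous_induced_rng.2 ?_
    have e : (Subtype.val ∘ k' : stabD (K := K) P → AbsGal K) =
        fun a : stabD (K := K) P => κ (g⁻¹ * (a : AbsGal K) * g) := funext hk'
    rw [e]
    exact hκc.comp ((continuous_const.mul continuous_subtype_val).mul continuous_const)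
  have hgg : ∀ y, ρ g *ᵥ (ρ g⁻¹ *ᵥ y) = y := fun y => by
    rw [mulVec_mulVec, ← map_mul, mul_inv_cancel, map_one, one_mulVec]
  have hgg' : ∀ y, ρ g⁻¹ *ᵥ (ρ g *ᵥ y) = y := fun y => by
    rw [mulVec_mulVec, ← map_mul, inv_mul_cancel, map_one, one_mulVec]
  have hself := self_green H hW h0 hk hW'
  -- the conjugate cocycle
  have hcoc : ∀ y : stabD (K := K) P → Fin n → E,
      Parity.IsCocycle (fun σ : stabD (K := K) P => ρ (κ σ)) y →
      Parity.IsCocycle (fun σ : stabD (K := K) P => ρ σ) (fun a => ρ g *ᵥ y (k' a)) := by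
    rintro y ⟨hy1, hy2⟩
    refine ⟨?_, fun a a' => ?_⟩
    · exact (Continuous.matrix_mulVec continuous_const (hy1.comp hk'c))
    · show ρ g *ᵥ y (k' (a * a')) = ρ g *ᵥ y (k' a) + ρ a *ᵥ (ρ g *ᵥ y (k' a'))
      rw [hk'm, hy2, mulVec_add]
      congr 1
      rw [mulVec_mulVec, mulVec_mulVec, ← map_mul, ← map_mul, hk', hκκ]
      congr 2
      group
  have hiff : ∀ y : stabD (K := K) P → Fin n → E,
      Parity.IsCocycle (fun σ : stabD (K := K) P => ρ (κ σ)) y →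
      ((fun a => ρ g *ᵥ y (k' a)) ∈ greenbergAt ρ (stabD (K := K) P) W ↔
        ∃ w, ∀ σ : stabD (K := K) P, y σ - (ρ (κ σ) *ᵥ w - w) ∈ annih b W) := by
    intro y hy
    have key : ∀ (w : Fin n → E) (σ : stabD (K := K) P),
        ρ g *ᵥ y (k' (k σ)) - (ρ (k σ : AbsGal K) *ᵥ (ρ g *ᵥ w) - ρ g *ᵥ w) =
          ρ g *ᵥ (y σ - (ρ (κ σ) *ᵥ w - w)) := by
      intro w σ
      have e1 : ρ (k σ : AbsGal K) *ᵥ (ρ g *ᵥ w) = ρ g *ᵥ (ρ (κ σ) *ᵥ w) := by
        rw [mulVec_mulVec, mulVec_mulVec, ← map_mul, ← map_mul, hk]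
        congr 2
        group
      rw [e1, hk'k, mulVec_sub, mulVec_sub]
    constructor
    · rintro ⟨_, v, hv⟩
      refine ⟨ρ g⁻¹ *ᵥ v, fun σ => ?_⟩
      rw [hW', ← key, hgg]
      exact hv (k σ)
    · rintro ⟨w, hw⟩
      refine ⟨hcoc y hy, ρ g *ᵥ w, fun a => ?_⟩
      have h5 := (hW' _).1 (hw (k' a))
      rw [← key, hkk'] at h5
      exact h5
  have hperp : ∀ y : stabD (K := K) P → Fin n → E,
      Parity.IsCocycle (fun σ : stabD (K := K) P => ρ (κ σ)) y →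
      ((fun a => ρ g *ᵥ y (k' a)) ∈ greenbergAt ρ (stabD (K := K) P) W ↔
        IsPerp (fun σ : stabD (K := K) P => cyclo E (σ : AbsGal K))
          (fun σ : stabD (K := K) P => ρ (κ σ)) b (greenbergAt ρ (stabD (K := K) P) W) y) := by
    intro y hy
    have h6 := hself.2 (fun a => ρ g *ᵥ y (k' a)) (hcoc y hy)
    have e2 : (fun σ : stabD (K := K) P => ρ g⁻¹ *ᵥ (ρ g *ᵥ y (k' (k σ)))) = y := by
      funext σ
      rw [hgg', hk'k]
    rw [e2] at h6
    exact h6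
  ext y
  rw [mem_perpAt]
  constructor
  · intro hy
    exact ⟨hy.1, (hiff y hy.1).1 ((hperp y hy.1).2 hy)⟩
  · rintro ⟨hy1, hy2⟩
    exact (hperp y hy1).1 ((hiff y hy1).2 hy2)

end Pool.Agent.Work.MP_787500_nt.UA
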