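import Mathlib
import Pool.Agent.Work.MP_787500_nt.UA.Defs
import Pool.Agent.Work.MP_787500_nt.KJ.MainL
import Pool.Agent.Work.MP_787500_nt.OV.MainR

/-!
# UA/SelfA: representations with residually self-dual traces, arbitrary self-annihilating conditions, 2 does not split

`selfA`: copy of `OV.selfR` with the Artin conductor at the inert primes.
-/

set_option autoImplicit false
set_option linter.unusedSectionVars false

namespace Pool.Agent.Work.MP_787500_nt.UA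

open Matrix NumberField
open Pool.Agent.Work.MP_787500_nt.OV (eq_cj two_finrank swap_iff)
open Pool.Agent.Work.MP_787500_nt.PA (cyc)
open Pool.Agent.Work.MP_787500_nt.GP (bil inT stabD)
open Pool.Agent.Work.MP_787500_nt.HP (IsQ stb)
open Pool.Agent.Work.MP_787500_nt.KS (iK)
open Pool.Agent.Work.MP_787500_nt.Parity
open Pool.Agent.Work.MP_787500_nt.AR (artK wildSet)

universe u v

variable {K : Type u} [Field K] [NumberField K] {D : ℕ} {s : K}
  {c : AlgebraicClosure K ≃+* AlgebraicClosure K} {κ : AbsGal K →* AbsGal K}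
  {P P' : Ideal (𝓞 (AlgebraicClosure K))}

open scoped Classical in
theorem selfA (hK : QX.IsI K D s) (hc : PA.IsConj s c)
    (hκ : ∀ (σ : AbsGal K) (x : AlgebraicClosure K), κ σ x = c (σ (c x))) (hP : P.IsPrime)
    (hP2 : (2 : 𝓞 (AlgebraicClosure K)) ∈ P)
    (hPP : ∀ x y : 𝓞 (AlgebraicClosure K), (y : AlgebraicClosure K) = c x → (y ∈ P' ↔ x ∈ P))
    {T : Finset ℕ} (hT : ∀ l ∈ T, l.Prime ∧ l ≠ 2)
    {Q : ℕ → Ideal (𝓞 (AlgebraicClosure K))}
    (hQ : ∀ l ∈ T, (Q l).IsPrime ∧ (l : 𝓞 (AlgebraicClosure K)) ∈ Q l)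
    {E : Type v} [NormedField E] [NormedAlgebra ℚ_[2] E] [FiniteDimensional ℚ_[2] E] {n : ℕ}
    {ρ : AbsGal K →* Matrix (Fin n) (Fin n) E} {b : Matrix (Fin n) (Fin n) E} (hb : b.det ≠ 0)
    (hρ : IsDualRep (inT K T) (cyclo E) κ ρ b) (hres : ResTrace ρ)
    {W₁ : Subgroup (AbsGal K)} (hWo : IsOpen (W₁ : Set (AbsGal K))) (hWn : W₁.Normal)
    (hWt : ∀ l ∈ T, GA.Inr D l → ∀ g ∈ W₁, g ∈ wildSet l (Q l) → ρ g = 1)
    (hR : ∀ l ∈ T, l ∣ D → SemistableOn ((Q l).inertia (AbsGal K)) ρ)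
    {W : Submodule E (Fin n → E)} (hW : ∀ σ ∈ stabD P, ∀ x ∈ W, ρ σ *ᵥ x ∈ W)
    {g : AbsGal K} (hg : ∀ x : 𝓞 (AlgebraicClosure K), x ∈ P' ↔ g • x ∈ P)
    (hW' : ∀ y, y ∈ annih b W ↔ ρ g *ᵥ y ∈ W)
    {k : stabD P → stabD P} (hk : ∀ a, (k a : AbsGal K) = g * κ a * g⁻¹) :
    ParitySelf (inertiaOffTwo K) (cyclo E) κ ρ b (stabD P) (ρ g⁻¹) k W
        (∑ l ∈ T.filter (GA.Inr D), artK l W₁ (Q l) ρ +
          ∑ l ∈ T.filter (fun l => l ∣ D),
            quotDim (stabD (Q l)) ((Q l).inertia (AbsGal K)) ρ) := by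
  have X := QX.two_I hK hc hκ
  obtain rfl := eq_cj hPP
  have hW2 := two_finrank hb hW'
  have hW0 : ∀ x ∈ W, ∀ y ∈ W, bil b x (ρ g⁻¹ *ᵥ y) = 0 := fun x hx y hy => by
    refine (hW' _).2 ?_ x hx
    rw [mulVec_mulVec, ← map_mul, mul_inv_cancel, map_one, one_mulVec]
    exact hy
  exact (KJ.main_genL8 (κ := κ) hK hc hκ hP hP2 hT hQ hb hρ hres hWo hWn hWt hR ((swap_iff X g).2 hg)
    hk hW hW2 hW0).2

end Pool.Agent.Work.MP_787500_nt.UA
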