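import Mathlib
import Pool.Agent.Work.MP_787500_nt.UA.SelfA
import Pool.Agent.Work.MP_787500_nt.UV.KeyB

/-!
# UA/ParN: the parity formula over `K` if 2 does not split

Copy of UV/ParN.lean for `DatA`.
-/

set_option autoImplicit false
set_option linter.unusedSectionVars false

namespace Pool.Agent.Work.MP_787500_nt.UA

open Matrix NumberField
open Pool.Agent.Work.MP_787500_nt.GP (inT stabD)
open Pool.Agent.Work.MP_787500_nt.PA (toE cyc)
open Pool.Agent.Work.MP_787500_nt.HP (IsQ stb)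
open Pool.Agent.Work.MP_787500_nt.KS (iK)
open Pool.Agent.Work.MP_787500_nt.Parity
open Pool.Agent.Work.MP_787500_nt.UV (perpAt mem_perpAt SubK CondK FormK perp_cobR perp_iff)

universe u v

variable {K : Type u} [Field K] [NumberField K] {D : ℕ} {s : K}
  {c : AlgebraicClosure K ≃+* AlgebraicClosure K} {κ : AbsGal K →* AbsGal K} {T : Finset ℕ}
  {Q : ℕ → Ideal (𝓞 (AlgebraicClosure K))} {P P' : Ideal (𝓞 (AlgebraicClosure K))}
  {E : Type v} [NormedField E] [NormedAlgebra ℚ_[2] E] [FiniteDimensional ℚ_[2] E] {n : ℕ}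
  {ρ : AbsGal K →* Matrix (Fin n) (Fin n) E} {b : Matrix (Fin n) (Fin n) E}
  {W₁ : Subgroup (AbsGal K)}

theorem par_N (H : DatA D s c κ T W₁ Q ρ b) {W : Submodule E (Fin n → E)} (hW : SubK c P P' ρ b W)
    {L : Submodule E (stabD (K := K) P → Fin n → E)} (hL : CondK κ P P' ρ b L) (hD : D % 8 ≠ 7) :
    FormK (inertiaOffTwo K) (cyclo E) κ ρ b (stabD P) W (D % 8 = 7) (numA D T W₁ Q ρ) L := by
  have X := QX.two_I H.isI H.conj H.kap
  obtain ⟨g, h0⟩ := QX.exists_swap2 H.isI H.conj hD hW.prime hW.two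
  have hP' := OV.eq_cj hW.swap
  have hg : ∀ x : 𝓞 (AlgebraicClosure K), x ∈ P' ↔ g • x ∈ P := by
    rw [hP']
    exact (OV.swap_iff X g).1 h0
  have hκκ : ∀ a, κ (κ a) = a := GA.kap_kap H.conj H.kap
  have hκc : Continuous κ := PA.kappa_continuous H.conj.sq H.kap
  have hmem : ∀ a : stabD (K := K) P, g * κ a * g⁻¹ ∈ stabD (K := K) P := fun a => by
    refine (OV.mem_stabD_conj X h0 _).1 ((OV.mem_stabD_cj X _).2 ?_)
    rw [hκκ]
    exact a.2
  obtain ⟨k, hk⟩ : ∃ k : stabD (K := K) P → stabD (K := K) P,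
      ∀ a, (k a : AbsGal K) = g * κ a * g⁻¹ := ⟨fun a => ⟨_, hmem a⟩, fun a => rfl⟩
  have hself : IsSelfPerp (cyclo E) κ ρ b (stabD P) (ρ g⁻¹) k L :=
    ⟨hL.between, hL.perp g hg k hk⟩
  have hW' := hW.ann g hg
  have hW2 := OV.two_finrank H.det hW'
  obtain ⟨h1, h2, h3, h4⟩ := selfA H.isI H.conj H.kap hW.prime hW.two hW.swap H.prime H.above
    H.det H.rep H.res H.opn H.nor H.wild H.ram hW.st hg hW' hk L hself
  have hsel : selmerBK (inertiaOffTwo K) (cyclo E) κ ρ b (stabD P) L =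
      selmerAt (inertiaOffTwo K) ρ (stabD P) L := by
    ext x
    constructor
    · rintro ⟨k1, k2, k3, -⟩
      exact ⟨k1, k2, k3⟩
    · rintro ⟨k1, k2, k3⟩
      refine ⟨k1, k2, k3, ?_⟩
      have e1 := (hself.2 _ (hL.between.2 k3)).1 k3
      have e2 : (fun σ : stabD (K := K) P => ρ g⁻¹ *ᵥ x (k σ)) =
          (fun σ : stabD (K := K) P => x (κ σ)) +
            fun σ : stabD (K := K) P => ρ (κ σ) *ᵥ x g⁻¹ - x g⁻¹ := by
        funext σ
        have e3 : x g⁻¹ = -(ρ g⁻¹ *ᵥ x g) := OV.coc_inv k1 g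
        show ρ g⁻¹ *ᵥ x (k σ) = x (κ σ) + (ρ (κ σ) *ᵥ x g⁻¹ - x g⁻¹)
        have e4 : ρ g⁻¹ *ᵥ x g = - x g⁻¹ := by rw [e3, neg_neg]
        have e5 : ∀ v, ρ g⁻¹ *ᵥ (ρ g *ᵥ v) = v := fun v => by
          rw [mulVec_mulVec, ← map_mul, inv_mul_cancel, map_one, one_mulVec]
        rw [hk, k1.2 (g * κ σ) g⁻¹, k1.2 g (κ σ), map_mul, ← mulVec_mulVec, mulVec_add,
          mulVec_add, e5, e5, e4]
        abel
      have e3 : IsPerp (fun σ : stabD (K := K) P => cyclo E (σ : AbsGal K))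
          (fun σ : stabD (K := K) P => ρ (κ σ)) b (L : Set (stabD (K := K) P → Fin n → E))
          (fun σ : stabD (K := K) P => ρ (κ σ) *ᵥ x g⁻¹ - x g⁻¹) := by
        refine perp_cobR (A := fun σ : stabD (K := K) P => ρ σ) (fun s t => ?_) ?_ ?_ hL.between.2
          ⟨x g⁻¹, fun σ => rfl⟩
        · show ρ (κ ((s : AbsGal K) * t)) = _
          rw [map_mul, map_mul]
        · exact H.rep.cont.comp (hκc.comp continuous_subtype_val)
        · intro σ
          exact H.rep.dual σ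
      rw [e2] at e1
      exact (perp_iff e3).1 e1
  refine ⟨h1, by rw [hsel]; exact h2, by rw [hsel]; exact h3, ?_⟩
  rw [hsel, if_neg hD, add_zero]
  have h5 := OV.dimModulo_eq (OV.le_fixedModulo (A := fun σ : stabD (K := K) P => ρ σ)
    fun a x hx => hW.st a a.2 x hx)
  have h6 : dimModulo (fixedModulo (fun σ : stabD (K := K) P => ρ σ) W) W =
      Module.finrank E (fixedModulo (fun σ : stabD (K := K) P => ρ σ) W) -
        Module.finrank E W := by omega
  have h7 : n / 2 = Module.finrank E W := by omega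
  rw [h6]
  rw [h7] at h4
  exact h4

end Pool.Agent.Work.MP_787500_nt.UA
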