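import Mathlib
import Pool.Agent.Work.MP_787500_nt.UA.Defs
import Pool.Agent.Work.MP_787500_nt.AR.Main8
import Pool.Agent.Work.MP_787500_nt.OV.Prm
import Pool.Agent.Work.MP_787500_nt.UV.PerpDim
import Pool.Agent.Work.MP_787500_nt.UV.GrS
import Pool.Agent.Work.MP_787500_nt.SF.EvenW

/-!
# UA/ParS: the parity formula over `K` if 2 splits

Copies of UV/ParS.lean and UV/FdS.lean for `DatA` (residual traces, `AR.main_gen8`).
-/

set_option autoImplicit false
set_option linter.unusedSectionVars false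

namespace Pool.Agent.Work.MP_787500_nt.UA

open Matrix NumberField
open Pool.Agent.Work.MP_787500_nt.GP (inT stabD)
open Pool.Agent.Work.MP_787500_nt.PA (toE cyc)
open Pool.Agent.Work.MP_787500_nt.HP (IsQ stb)
open Pool.Agent.Work.MP_787500_nt.Parity
open Pool.Agent.Work.MP_787500_nt.UV (perpAt mem_perpAt SubK CondK FormK perp_dim gr_perp_S gr_dim_S)

universe u v

variable {K : Type u} [Field K] [NumberField K] {D : ℕ} {s : K}
  {c : AlgebraicClosure K ≃+* AlgebraicClosure K} {κ : AbsGal K →* AbsGal K} {T : Finset ℕ}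
  {Q : ℕ → Ideal (𝓞 (AlgebraicClosure K))} {P P' : Ideal (𝓞 (AlgebraicClosure K))}
  {E : Type v} [NormedField E] [NormedAlgebra ℚ_[2] E] [FiniteDimensional ℚ_[2] E] {n : ℕ}
  {ρ : AbsGal K →* Matrix (Fin n) (Fin n) E} {b : Matrix (Fin n) (Fin n) E}
  {W₁ : Subgroup (AbsGal K)}

private theorem par_green {G : Type*} [Group G] [TopologicalSpace G] {E : Type*} [NormedField E]
    {n : ℕ} {ρ : G →* Matrix (Fin n) (Fin n) E} {D : Subgroup G} {W : Submodule E (Fin n → E)}
    (h : coboundaries (fun σ : D => ρ σ) ≤ Parity.cocycles (fun σ : D => ρ σ)) :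
    Between (coboundaries (fun σ : D => ρ σ)) (greenbergAt ρ D W)
      (Parity.cocycles (fun σ : D => ρ σ)) := by
  refine ⟨fun x hx => ?_, fun x hx => hx.1⟩
  obtain ⟨v, hv⟩ := hx
  refine ⟨h ⟨v, hv⟩, v, fun σ => ?_⟩
  rw [hv σ, sub_self]
  exact W.zero_mem

private theorem par_arith {a f l B L G X w m k p q t : ℕ} (h : a + f ≡ l + m + t [MOD 2])
    (h1 : l + B = L) (h2 : k + B = G) (h3 : p + X = L) (h4 : q + X = G) {w' u : ℕ}
    (h5 : k + m ≡ w + w' + u [MOD 2]) :
    a + f ≡ w + w' + p + (u + q) + t [MOD 2] := by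
  unfold Nat.ModEq at *
  omega

theorem par_S (H : DatA D s c κ T W₁ Q ρ b) {W : Submodule E (Fin n → E)} (hW : SubK c P P' ρ b W)
    {L : Submodule E (stabD (K := K) P → Fin n → E)} (hL : CondK κ P P' ρ b L) (hD : D % 8 = 7) :
    FormK (inertiaOffTwo K) (cyclo E) κ ρ b (stabD P) W (D % 8 = 7) (numA D T W₁ Q ρ) L := by
  have hK : IsQ K D s := ⟨H.isI.deg, H.isI.sq, H.isI.sqf, hD⟩
  have hn : Even n := SF.even_dim hK H.conj H.kap H.prime H.above H.det H.rep H.ram
  have hm : Parity.ParityBKA (inertiaOffTwo K) (cyclo E) κ ρ b (stabD P) (numA D T W₁ Q ρ) :=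
    AR.main_gen8 hK H.conj H.kap hW.prime hW.two H.prime H.above hn H.det H.rep H.res H.opn H.nor
      H.wild H.ram
  have hBZ : coboundaries (fun σ : stabD (K := K) P => ρ σ) ≤
      Parity.cocycles (fun σ : stabD (K := K) P => ρ σ) := hL.between.1.trans hL.between.2
  have hfd : FiniteDimensional E (Parity.cocycles (fun σ : stabD (K := K) P => ρ σ)) :=
    (hm _ ⟨hBZ, le_rfl⟩).1
  obtain ⟨hLfd, hsel, hcob, hpar⟩ := hm L hL.between
  have hG := par_green (W := W) hBZ
  have hGfd : FiniteDimensional E (greenbergAt ρ (stabD (K := K) P) W) :=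
    Submodule.finiteDimensional_of_le hG.2
  have h1 := perp_dim hK H.conj H.kap hW.prime hW.two H.det H.rep hfd hL.between hG
  rw [gr_perp_S hK H.conj H.kap hW.prime hW.two H.det H.rep hW.st] at h1
  have h2 := gr_dim_S hK H.conj H.kap hW.prime hW.two H.det H.rep hW.st hfd
  refine ⟨hLfd, hsel, hcob, ?_⟩
  rw [if_pos hD, h1]
  exact par_arith hpar (GP.dimModulo_add hL.between.1 hLfd) (GP.dimModulo_add hG.1 hGfd)
    (GP.dimModulo_add inf_le_left hLfd) (GP.dimModulo_add inf_le_right hGfd) h2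

private theorem fd_S1 (H : DatA D s c κ T W₁ Q ρ b) (hP : P.IsPrime)
    (hP2 : (2 : 𝓞 (AlgebraicClosure K)) ∈ P) (hD : D % 8 = 7) :
    FiniteDimensional E (Parity.cocycles (fun σ : stabD (K := K) P => ρ σ)) := by
  classical
  have hK : IsQ K D s := ⟨H.isI.deg, H.isI.sq, H.isI.sqf, hD⟩
  have hn : Even n := SF.even_dim hK H.conj H.kap H.prime H.above H.det H.rep H.ram
  have h := AR.main_gen8 hK H.conj H.kap hP hP2 H.prime H.above hn H.det H.rep H.res H.opn H.nor
    H.wild H.ram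
  refine (h _ ⟨?_, le_rfl⟩).1
  rintro x ⟨v, hv⟩
  refine ⟨?_, fun σ τ => ?_⟩
  · have hx : x = fun σ : stabD (K := K) P => ρ σ *ᵥ v - v := funext hv
    rw [hx]
    exact ((H.rep.cont.comp continuous_subtype_val).matrix_mulVec continuous_const).sub
      continuous_const
  · rw [hv, hv, hv]
    show ρ ((σ : AbsGal K) * τ) *ᵥ v - v = ρ σ *ᵥ v - v + ρ σ *ᵥ (ρ τ *ᵥ v - v)
    rw [map_mul, ← Matrix.mulVec_mulVec, Matrix.mulVec_sub]
    abel

theorem fd_S (H : DatA D s c κ T W₁ Q ρ b) (hP : P.IsPrime)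
    (hP2 : (2 : 𝓞 (AlgebraicClosure K)) ∈ P) (hD : D % 8 = 7) :
    FiniteDimensional E (Parity.cocycles (fun σ : stabD (K := K) P => ρ σ)) ∧
      FiniteDimensional E (Parity.cocycles (fun σ : stabD (K := K) P => (ρ.comp κ) σ)) := by
  refine ⟨fd_S1 H hP hP2 hD, ?_⟩
  have h1 := fd_S1 H (GA.cj_prime (a := c) hP) (GA.two_mem_cj.2 hP2) hD
  have X := QX.two_I H.isI H.conj H.kap
  have hkk : ∀ g, κ (κ g) = g := GA.kap_kap H.conj H.kap
  have hkc : Continuous κ := PA.kappa_continuous H.conj.sq H.kap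
  let k : stabD (K := K) (GA.cj c P) →* stabD (K := K) P :=
    { toFun := fun a => ⟨κ a, (OV.mem_stabD_cj X _).1 a.2⟩
      map_one' := Subtype.ext (map_one κ)
      map_mul' := fun a a' => Subtype.ext (map_mul κ _ _) }
  have hk : Continuous k := (hkc.comp continuous_subtype_val).subtype_mk _
  have hks : Function.Surjective k := fun d =>
    ⟨⟨κ d, (OV.mem_stabD_cj X _).2 (by rw [hkk]; exact d.2)⟩, Subtype.ext (hkk d)⟩
  let f : Parity.cocycles (fun σ : stabD (K := K) P => (ρ.comp κ) σ) →ₗ[E]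
      Parity.cocycles (fun σ : stabD (K := K) (GA.cj c P) => ρ σ) :=
    LinearMap.codRestrict _ (LinearMap.funLeft E (Fin n → E) k ∘ₗ Submodule.subtype _)
      (by
        rintro ⟨y, hy⟩
        refine ⟨hy.1.comp hk, fun σ τ => ?_⟩
        have h := hy.2 (k σ) (k τ)
        rw [← map_mul] at h
        have h2 : (ρ.comp κ) (k σ) = ρ σ := by
          show ρ (κ (κ σ)) = ρ σ
          rw [hkk]
        have h3 : y (k (σ * τ)) = y (k σ) + (ρ.comp κ) (k σ) *ᵥ y (k τ) := h
        rw [h2] at h3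
        exact h3)
  have hf : Function.Injective f := by
    intro y z hyz
    apply Subtype.ext
    funext d
    obtain ⟨a, rfl⟩ := hks d
    exact congrFun (congrArg Subtype.val hyz) a
  exact Module.Finite.of_injective f hf

end Pool.Agent.Work.MP_787500_nt.UA
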