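import Mathlib
import Pool.Agent.Work.MP_787500_nt.UA.ParS
import Pool.Agent.Work.MP_787500_nt.UA.ParN
import Pool.Agent.Work.MP_787500_nt.UA.GrN

/-!
The two statements over `K` for all imaginary quadratic fields (copy of UV/ParK.lean).
-/

set_option autoImplicit false
set_option linter.unusedSectionVars false

namespace Pool.Agent.Work.MP_787500_nt.UA

open Matrix NumberField
open Pool.Agent.Work.MP_787500_nt.GP (inT stabD)
open Pool.Agent.Work.MP_787500_nt.HP (IsQ)
open Pool.Agent.Work.MP_787500_nt.Parity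
open Pool.Agent.Work.MP_787500_nt.UV (perpAt mem_perpAt SubK CondK FormK gr_perp_S)

universe u v

variable {K : Type u} [Field K] [NumberField K] {D : ℕ} {s : K}
  {c : AlgebraicClosure K ≃+* AlgebraicClosure K} {κ : AbsGal K →* AbsGal K} {T : Finset ℕ}
  {Q : ℕ → Ideal (𝓞 (AlgebraicClosure K))} {P P' : Ideal (𝓞 (AlgebraicClosure K))}
  {E : Type v} [NormedField E] [NormedAlgebra ℚ_[2] E] [FiniteDimensional ℚ_[2] E] {n : ℕ}
  {ρ : AbsGal K →* Matrix (Fin n) (Fin n) E} {b : Matrix (Fin n) (Fin n) E}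
  {W₁ : Subgroup (AbsGal K)}

theorem par_A (H : DatA D s c κ T W₁ Q ρ b) {W : Submodule E (Fin n → E)} (hW : SubK c P P' ρ b W)
    {L : Submodule E (stabD (K := K) P → Fin n → E)} (hL : CondK κ P P' ρ b L) :
    FormK (inertiaOffTwo K) (cyclo E) κ ρ b (stabD P) W (D % 8 = 7) (numA D T W₁ Q ρ) L := by
  by_cases hD : D % 8 = 7
  · exact par_S H hW hL hD
  · exact par_N H hW hL hD

theorem gr_perp_A (H : DatA D s c κ T W₁ Q ρ b) {W : Submodule E (Fin n → E)}
    (hW : SubK c P P' ρ b W) :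
    perpAt (fun σ : stabD (K := K) P => cyclo E (σ : AbsGal K))
        (fun σ : stabD (K := K) P => ρ (κ σ)) b (greenbergAt ρ (stabD P) W) =
      greenbergAt (ρ.comp κ) (stabD P) (annih b W) := by
  by_cases hD : D % 8 = 7
  · exact gr_perp_S ⟨H.isI.deg, H.isI.sq, H.isI.sqf, hD⟩ H.conj H.kap hW.prime hW.two H.det H.rep
      hW.st
  · exact gr_perp_N H hW hD

end Pool.Agent.Work.MP_787500_nt.UA
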