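import Mathlib
import Pool.Agent.Work.MP_787500_nt.UV.VersA
import Pool.Agent.Work.MP_787500_nt.UA.Final

/-!
The parity formula over the open subgroup `H`, for families of conditions at all primes over 2; Artin conductor at the inert
primes (copy of UV/VersA.lean).
-/

set_option autoImplicit false
set_option linter.unusedSectionVars false

namespace Pool.Agent.Work.MP_787500_nt.UA

open Matrix NumberField
open Pool.Agent.Work.MP_787500_nt.SH
open Pool.Agent.Work.MP_787500_nt.UV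
open Pool.Agent.Work.MP_787500_nt.AR (wildSet condA)
open Pool.Agent.Work.MP_787500_nt.SF (Tw)
open Pool.Agent.Work.MP_787500_nt.GP (inT stabD)

universe u v w₁ w₂

variable {K : Type u} [Field K] [NumberField K] {D : ℕ} {s : K}
  {c₀ : AlgebraicClosure K ≃+* AlgebraicClosure K} {κ₀ : AbsGal K →* AbsGal K}

open scoped Classical in
theorem vers_UA (hK : QX.IsI K D s) (hc : PA.IsConj s c₀)
    (hκ : ∀ (σ : AbsGal K) (x : AlgebraicClosure K), κ₀ σ x = c₀ (σ (c₀ x)))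
    {T : Finset ℕ} (hT : ∀ l ∈ T, l.Prime ∧ l ≠ 2)
    {H : Subgroup (AbsGal K)} (hH : IsOpen (H : Set (AbsGal K))) {g₀ : AbsGal K} {kk : H →* H}
    (tw : Tw H κ₀ g₀ kk) (hTH : ∀ σ ∈ inT K T, σ ∈ H)
    {E : Type v} [NormedField E] [NormedAlgebra ℚ_[2] E] [FiniteDimensional ℚ_[2] E] {n : ℕ}
    {τ : H →* Matrix (Fin n) (Fin n) E} {b : Matrix (Fin n) (Fin n) E} (hb : b.det ≠ 0)
    (hτc : Continuous τ) (hτu : ∀ σ : H, (σ : AbsGal K) ∈ inT K T → τ σ = 1)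
    (hτs : b * τ ⟨g₀ * κ₀ g₀, tw.mem⟩ = Parity.cyclo E g₀ • bᵀ)
    (hdτ : ∀ h : H, (τ h)ᵀ * b * τ (kk h) = Parity.cyclo E (h : AbsGal K) • b)
    (hres : Parity.ResTrace τ)
    {Ψ : ℕ → Type w₁} [∀ l, Fintype (Ψ l)] {Q : ∀ l, Ψ l → Ideal (𝓞 (AlgebraicClosure K))}
    (hQ : ∀ l ∈ T, GA.Inr D l ∨ l ∣ D →
      IsReps H {Q | Q.IsPrime ∧ (l : 𝓞 (AlgebraicClosure K)) ∈ Q} (Q l))
    {W₁ : Subgroup (AbsGal K)} (hWo : IsOpen (W₁ : Set (AbsGal K))) (hWn : W₁.Normal)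
    (hWH : W₁ ≤ H)
    (hWt : ∀ l ∈ T, GA.Inr D l → ∀ i, ∀ h : H, (h : AbsGal K) ∈ W₁ →
      (h : AbsGal K) ∈ wildSet l (Q l i) → τ h = 1)
    (hR : ∀ l ∈ T, l ∣ D → ∀ i, (Q l i).inertia (AbsGal K) ≤ H ∧
      Parity.SemistableOn (((Q l i).inertia (AbsGal K)).subgroupOf H) τ)
    {c : AlgebraicClosure K ≃+* AlgebraicClosure K} (hcg : ∀ x, c x = g₀ (c₀ x))
    {v : Ideal (𝓞 K)} (hv : v.IsPrime) (hv2 : (2 : 𝓞 K) ∈ v)
    {Φ : Type w₂} [Fintype Φ] {P : Φ → Ideal (𝓞 (AlgebraicClosure K))}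
    (hP : IsReps H {Q | Q.IsPrime ∧ (2 : 𝓞 (AlgebraicClosure K)) ∈ Q} P)
    {W : Φ → Submodule E (Fin n → E)}
    (hW : IsDualSub τ b (fun i => (stabD (P i)).subgroupOf H) (fun i j h => CR c (P i) (P j) h) W) :
    ParityDual {I : Subgroup H | ∃ J ∈ Parity.inertiaOffTwo K, I = J.subgroupOf H}
      (fun σ : H => Parity.cyclo E (σ : AbsGal K)) kk τ b (fun i => (stabD (P i)).subgroupOf H)
      (fun i j h => CR c (P i) (P j) h) W
      (fun i => if Ov v (P i) then H.relIndex (stabD (P i)) else 0)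
      (∑ l ∈ T.filter (GA.Inr D), condA l W₁ τ (fun i => stabD (Q l i)) (Q l) +
        ∑ l ∈ T.filter (fun l => l ∣ D), condR H τ (fun i => stabD (Q l i))
          (fun i => (Q l i).inertia (AbsGal K))) := by
  have hκc : Continuous κ₀ := PA.kappa_continuous hc.sq hκ
  have hkc : Continuous kk := by
    refine continuous_induced_rng.2 ?_
    have e1 : ((fun x : H => (x : AbsGal K)) ∘ kk) = fun h : H => g₀ * κ₀ (h : AbsGal K) * g₀⁻¹ :=
      funext fun h => tw.coe h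
    rw [e1]
    exact (continuous_const.mul (hκc.comp continuous_subtype_val)).mul continuous_const
  have hκκ : ∀ g, κ₀ (κ₀ g) = g := GA.kap_kap hc hκ
  -- the conjugation
  have hinv : ∀ x, g₀⁻¹ (g₀ x) = x := fun x => by
    rw [← AlgEquiv.mul_apply, inv_mul_cancel, AlgEquiv.one_apply]
  have hcs : c (algebraMap K (AlgebraicClosure K) s) = -algebraMap K (AlgebraicClosure K) s := by
    rw [hcg, hc.neg, map_neg, g₀.commutes]
  have hκH : ∀ (σ : H) (x : AlgebraicClosure K),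
      (kk σ : AbsGal K) (c x) = c ((σ : AbsGal K) x) := by
    intro σ x
    rw [tw.coe, AlgEquiv.mul_apply, AlgEquiv.mul_apply, hcg, hinv, hκ, hc.sq, hcg]
  let c₂ : H := ⟨g₀ * κ₀ g₀, tw.mem⟩
  have hc₂ : ∀ x : AlgebraicClosure K, (c₂ : AbsGal K) x = c (c x) := by
    intro x
    show (g₀ * κ₀ g₀) x = c (c x)
    rw [AlgEquiv.mul_apply, hκ, hcg, hcg]
  have hkk2 : ∀ a, kk (kk a) = c₂ * a * c₂⁻¹ := by
    intro a
    apply Subtype.ext
    rw [tw.coe, tw.coe, map_mul, map_mul, map_inv, hκκ, Subgroup.coe_mul, Subgroup.coe_mul,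
      Subgroup.coe_inv]
    show g₀ * (κ₀ g₀ * a * (κ₀ g₀)⁻¹) * g₀⁻¹ = g₀ * κ₀ g₀ * a * (g₀ * κ₀ g₀)⁻¹
    group
  have hkc₂ : kk c₂ = c₂ := by
    apply Subtype.ext
    rw [tw.coe]
    show g₀ * κ₀ (g₀ * κ₀ g₀) * g₀⁻¹ = g₀ * κ₀ g₀
    rw [map_mul, hκκ]
    group
  let kk' : H → H := fun a => c₂⁻¹ * kk a * c₂
  have hkc' : Continuous kk' := (continuous_const.mul hkc).mul continuous_const
  have h1 : ∀ a, kk' (kk a) = a := by
    intro a
    show c₂⁻¹ * kk (kk a) * c₂ = a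
    rw [hkk2]
    group
  have h2 : ∀ a, kk (kk' a) = a := by
    intro a
    show kk (c₂⁻¹ * kk a * c₂) = a
    rw [map_mul, map_mul, map_inv, hkk2, hkc₂]
    group
  have hCR : ∀ i j (h : H), (∀ x y : 𝓞 (AlgebraicClosure K), (y : AlgebraicClosure K) =
      g₀ (c₀ x) → (x ∈ P i ↔ (h : AbsGal K) • y ∈ P j)) → CR c (P i) (P j) h :=
    fun i j h hr x y hxy => hr x y (hxy.trans (hcg _))
  -- the formula for the primes over one prime
  have hone := fun (P₀ : Ideal (𝓞 (AlgebraicClosure K))) (hP₀ : P₀.IsPrime)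
      (hP2 : (2 : 𝓞 (AlgebraicClosure K)) ∈ P₀) =>
    final_UA (P := fun i : {i // Ov (P₀.comap (algebraMap (𝓞 K) (𝓞 (AlgebraicClosure K)))) (P i)} =>
        P i) (W := fun i => W i) hK hc hκ hP₀ hP2 hT hH tw hTH hb hτc hτu hτs hdτ hres hQ
      hWo hWn hWH hWt hR
      (fun i => (hP.1 i).1) (fun i => i.2)
      (fun Q' hQ' hQu => reps_v hP (by
        rw [Ideal.mem_comap, map_ofNat]
        exact hP2) hQ' hQu)
      (fun i => hW.stable i) (fun i j h hr => hW.dual i j h (hCR i j h hr))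
  obtain ⟨P₀, hP₀, hP₀v⟩ := exists_over (K := K) hv
  have hP2 : (2 : 𝓞 (AlgebraicClosure K)) ∈ P₀ := by
    have h1 : (2 : 𝓞 K) ∈ P₀.comap (algebraMap (𝓞 K) (𝓞 (AlgebraicClosure K))) := by
      rw [hP₀v]
      exact hv2
    rw [Ideal.mem_comap, map_ofNat] at h1
    exact h1
  refine comb (D := fun i => (stabD (P i)).subgroupOf H) (W := W) (V := fun i => Ov v (P i))
    (rel := fun i j h => CR c (P i) (P j) h) (f := fun i => H.relIndex (stabD (P i)))
    (s := D % 8 = 7) hτc hkc hkc' h1 h2 hdτ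
    (fun i j h hr a => rel_stab hκH hr a) (fun i => exists_rel hP i)
    (fun hD => exists_pi hK hD hcs hκH hc₂ hP hv hv2)
    (fun hD i => over_nonsplit hK hD hv hv2 (hP.1 i).1 (hP.1 i).2) hW
    (fun i => (hone (P i) (hP.1 i).1 (hP.1 i).2).1 ⟨i, rfl⟩) (fun L hL i => ?_) (fun L hL => ?_)
  · exact ((hone (P i) (hP.1 i).1 (hP.1 i).2).2 (fun j => L j) (fun j => hL.between j)
      (fun j k h hr => hL.dual j k h (hCR j k h hr))).1 ⟨i, rfl⟩
  · have h3 := (hone P₀ hP₀ hP2).2 (fun j => L j) (fun j => hL.between j)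
      (fun j k h hr => hL.dual j k h (hCR j k h hr))
    subst hP₀v
    exact h3

end Pool.Agent.Work.MP_787500_nt.UA
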