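import Mathlib
import Pool.Agent.Work.MP_787500_nt.UV.TwI
import Pool.Agent.Work.MP_787500_nt.UA.Vers
import Pool.Agent.Work.MP_787500_nt.AR.FDefs2
import Pool.Agent.Work.MP_787500_nt.AR.ExW

/-!
The parity formula over finite extensions of an imaginary quadratic field and families of local conditions at the places over 2
that are their own annihilators, in elementary terms; Artin conductor at the inert primes.
-/

set_option autoImplicit false
set_option linter.unusedSectionVars false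

namespace Pool.Agent.Work.MP_787500_nt.UA

open Matrix NumberField
open Pool.Agent.Work.MP_787500_nt.SH
open Pool.Agent.Work.MP_787500_nt.UV
open Pool.Agent.Work.MP_787500_nt.AR (wildSet condA IsAux exists_W)
open Pool.Agent.Work.MP_787500_nt.SF (Tw IsDualF cycloAut)
open Pool.Agent.Work.MP_787500_nt.PA (cyc toE)
open Pool.Agent.Work.MP_787500_nt.GP (inT stabD)
open Pool.Agent.Work.MP_787500_nt.HP (cyQ)
open Pool.Agent.Work.MP_787500_nt.Parity (SqMod)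

universe u v w₁ w₂

open scoped Classical in
theorem towerUA (K : Type u) [Field K] [NumberField K] (hK : Module.finrank ℚ K = 2) (D : ℕ)
    (hD : Squarefree D) (s : K) (hs : s ^ 2 = -(D : K))
    (c : AlgebraicClosure K ≃+* AlgebraicClosure K)
    (hcs : c (algebraMap K (AlgebraicClosure K) s) = -algebraMap K (AlgebraicClosure K) s)
    (T : Finset ℕ) (hT : ∀ l ∈ T, l.Prime ∧ l ≠ 2)
    (H : Subgroup (AbsGal K)) (hH : IsOpen (H : Set (AbsGal K))) (hTH : ∀ σ ∈ inT K T, σ ∈ H)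
    (κ : H → H)
    (hκ : ∀ (σ : H) (x : AlgebraicClosure K), (κ σ : AbsGal K) (c x) = c ((σ : AbsGal K) x))
    (c₂ : H) (hc₂ : ∀ x : AlgebraicClosure K, (c₂ : AbsGal K) x = c (c x))
    (E : Type v) [NormedField E] [NormedAlgebra ℚ_[2] E] [FiniteDimensional ℚ_[2] E] (n : ℕ)
    (τ : H →* Matrix (Fin n) (Fin n) E) (b : Matrix (Fin n) (Fin n) E) (hb : b.det ≠ 0)
    (hτ : IsDualF {σ : H | (σ : AbsGal K) ∈ inT K T} (fun σ => Parity.cyclo E (σ : AbsGal K)) κ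
      c₂ (cycloAut E c) τ b) (hres : Parity.ResTrace τ)
    (Ψ : ℕ → Type w₁) [∀ l, Fintype (Ψ l)] (Q : ∀ l, Ψ l → Ideal (𝓞 (AlgebraicClosure K)))
    (hQ : ∀ l ∈ T, IsReps H {Q | Q.IsPrime ∧ (l : 𝓞 (AlgebraicClosure K)) ∈ Q} (Q l))
    (N : Subgroup (AbsGal K)) (hNo : IsOpen (N : Set (AbsGal K))) (hNn : N.Normal) (hNH : N ≤ H)
    (hN : ∀ l ∈ T, ¬ SqMod D l → ∀ i, ∀ h : H, (h : AbsGal K) ∈ N →
      (h : AbsGal K) ∈ wildSet l (Q l i) → τ h = 1)
    (hR : ∀ l ∈ T, l ∣ D → ∀ i, (Q l i).inertia (AbsGal K) ≤ H ∧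
      Parity.SemistableOn (((Q l i).inertia (AbsGal K)).subgroupOf H) τ)
    (Φ : Type w₂) [Fintype Φ] (P : Φ → Ideal (𝓞 (AlgebraicClosure K)))
    (hP : IsReps H {Q | Q.IsPrime ∧ (2 : 𝓞 (AlgebraicClosure K)) ∈ Q} P)
    (W : Φ → Submodule E (Fin n → E))
    (hW : IsDualSub τ b (fun i => (stabD (P i)).subgroupOf H)
      (fun i j h => ∀ x y : 𝓞 (AlgebraicClosure K), (y : AlgebraicClosure K) = c x →
        (x ∈ P i ↔ (h : AbsGal K) • y ∈ P j)) W)
    (v : Ideal (𝓞 K)) (hv : v.IsPrime) (hv2 : (2 : 𝓞 K) ∈ v) :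
    ParityDual {I : Subgroup H | ∃ J ∈ Parity.inertiaOffTwo K, I = J.subgroupOf H}
      (fun σ => Parity.cyclo E (σ : AbsGal K)) κ τ b (fun i => (stabD (P i)).subgroupOf H)
      (fun i j h => ∀ x y : 𝓞 (AlgebraicClosure K), (y : AlgebraicClosure K) = c x →
        (x ∈ P i ↔ (h : AbsGal K) • y ∈ P j)) W
      (fun i => if (P i).comap (algebraMap (𝓞 K) (𝓞 (AlgebraicClosure K))) = v then
        H.relIndex (stabD (P i)) else 0)
      (∑ l ∈ T.filter (fun l => ¬ SqMod D l), condA l N τ (fun i => stabD (Q l i)) (Q l) +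
        ∑ l ∈ T.filter (fun l => l ∣ D), condR H τ (fun i => stabD (Q l i))
          (fun i => (Q l i).inertia (AbsGal K))) := by
  have hK' : QX.IsI K D s := ⟨hK, hs, hD⟩
  obtain ⟨c₀, κ₀, g₀, kk, hc₀, hκ₀, tw, hkk, hg2, hcy, hcg⟩ := exists_twI hK' hcs hκ hc₂
  have hdv : ∀ l, l ∣ D → SqMod D l := by
    intro l h
    refine ⟨0, ?_⟩
    have h1 : (l : ℤ) ∣ (D : ℤ) := by exact_mod_cast h
    simpa using h1
  have hf : T.filter (fun l => ¬ SqMod D l) = T.filter (GA.Inr D) :=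
    Finset.filter_congr fun l hl => ⟨fun h => ⟨(hT l hl).1, (hT l hl).2, fun h' => h (hdv l h'), h⟩,
      fun h => h.2.2.2⟩
  rw [hf]
  subst hkk
  have hτs : b * τ ⟨g₀ * κ₀ g₀, tw.mem⟩ = Parity.cyclo E g₀ • bᵀ := by
    have h1 : (⟨g₀ * κ₀ g₀, tw.mem⟩ : H) = c₂ := Subtype.ext hg2.symm
    have h2 : cycloAut E c = -Parity.cyclo E g₀ := by
      have h3 : cycloAut E c = toE E (cyQ c) := rfl
      have h4 : Parity.cyclo E g₀ = toE E (cyc g₀) := rfl
      rw [h3, h4, hcy]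
      show LB.toEh E (-cyc g₀) = -LB.toEh E (cyc g₀)
      exact map_neg _ _
    rw [h1, hτ.symm, h2, neg_neg]
  exact vers_UA hK' hc₀ hκ₀ hT hH tw hTH hb hτ.cont (fun σ hσ => hτ.unram σ hσ) hτs hτ.dual hres
    (fun l hl _ => hQ l hl) hNo hNn hNH (fun l hl hli => hN l hl hli.2.2.2) hR hcg hv hv2 hP hW

open scoped Classical in
theorem towerUB (K : Type u) [Field K] [NumberField K] (hK : Module.finrank ℚ K = 2) (D : ℕ)
    (hD : Squarefree D) (s : K) (hs : s ^ 2 = -(D : K))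
    (c : AlgebraicClosure K ≃+* AlgebraicClosure K)
    (hcs : c (algebraMap K (AlgebraicClosure K) s) = -algebraMap K (AlgebraicClosure K) s)
    (T : Finset ℕ) (hT : ∀ l ∈ T, l.Prime ∧ l ≠ 2)
    (H : Subgroup (AbsGal K)) (hH : IsOpen (H : Set (AbsGal K))) (hTH : ∀ σ ∈ inT K T, σ ∈ H)
    (κ : H → H)
    (hκ : ∀ (σ : H) (x : AlgebraicClosure K), (κ σ : AbsGal K) (c x) = c ((σ : AbsGal K) x))
    (c₂ : H) (hc₂ : ∀ x : AlgebraicClosure K, (c₂ : AbsGal K) x = c (c x))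
    (E : Type v) [NormedField E] [NormedAlgebra ℚ_[2] E] [FiniteDimensional ℚ_[2] E] (n : ℕ)
    (τ : H →* Matrix (Fin n) (Fin n) E) (b : Matrix (Fin n) (Fin n) E) (hb : b.det ≠ 0)
    (hτ : IsDualF {σ : H | (σ : AbsGal K) ∈ inT K T} (fun σ => Parity.cyclo E (σ : AbsGal K)) κ
      c₂ (cycloAut E c) τ b) (hres : Parity.ResTrace τ)
    (Ψ : ℕ → Type w₁) [∀ l, Fintype (Ψ l)] (Q : ∀ l, Ψ l → Ideal (𝓞 (AlgebraicClosure K)))
    (hQ : ∀ l ∈ T, IsReps H {Q | Q.IsPrime ∧ (l : 𝓞 (AlgebraicClosure K)) ∈ Q} (Q l))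
    (hR : ∀ l ∈ T, l ∣ D → ∀ i, (Q l i).inertia (AbsGal K) ≤ H ∧
      Parity.SemistableOn (((Q l i).inertia (AbsGal K)).subgroupOf H) τ)
    (Φ : Type w₂) [Fintype Φ] (P : Φ → Ideal (𝓞 (AlgebraicClosure K)))
    (hP : IsReps H {Q | Q.IsPrime ∧ (2 : 𝓞 (AlgebraicClosure K)) ∈ Q} P)
    (W : Φ → Submodule E (Fin n → E))
    (hW : IsDualSub τ b (fun i => (stabD (P i)).subgroupOf H)
      (fun i j h => ∀ x y : 𝓞 (AlgebraicClosure K), (y : AlgebraicClosure K) = c x →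
        (x ∈ P i ↔ (h : AbsGal K) • y ∈ P j)) W)
    (v : Ideal (𝓞 K)) (hv : v.IsPrime) (hv2 : (2 : 𝓞 K) ∈ v) :
    (∃ N, IsAux {l | l ∈ T ∧ ¬ SqMod D l} Q τ N) ∧
      ∀ N, IsAux {l | l ∈ T ∧ ¬ SqMod D l} Q τ N →
        ParityDual {I : Subgroup H | ∃ J ∈ Parity.inertiaOffTwo K, I = J.subgroupOf H}
          (fun σ => Parity.cyclo E (σ : AbsGal K)) κ τ b (fun i => (stabD (P i)).subgroupOf H)
          (fun i j h => ∀ x y : 𝓞 (AlgebraicClosure K), (y : AlgebraicClosure K) = c x →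
            (x ∈ P i ↔ (h : AbsGal K) • y ∈ P j)) W
          (fun i => if (P i).comap (algebraMap (𝓞 K) (𝓞 (AlgebraicClosure K))) = v then
            H.relIndex (stabD (P i)) else 0)
          (∑ l ∈ T.filter (fun l => ¬ SqMod D l), condA l N τ (fun i => stabD (Q l i)) (Q l) +
            ∑ l ∈ T.filter (fun l => l ∣ D), condR H τ (fun i => stabD (Q l i))
              (fun i => (Q l i).inertia (AbsGal K))) := by
  refine ⟨?_, fun N hN => towerUA K hK D hD s hs c hcs T hT H hH hTH κ hκ c₂ hc₂ E n τ b hb hτ hres Ψ Q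
    hQ N hN.opn hN.nor hN.le (fun l hl hl' => hN.triv l ⟨hl, hl'⟩) hR Φ P hP W hW v hv hv2⟩
  obtain ⟨N, h1, h2, h3, h4⟩ := exists_W hH hτ.cont
  exact ⟨N, h1, h2, h3, fun l hl i h => h4 l ((hT l hl.1).1.odd_of_ne_two (hT l hl.1).2) _ h⟩

end Pool.Agent.Work.MP_787500_nt.UA
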